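import Pool.Agent.helper91.SI.Spec

/-!
# Project SI, row CA1 (helper51)
-/

set_option autoImplicit false

open Finset

namespace Pool.Agent.helper91.SI

open Pool.Agent.helper20.IG (IsIndepDom IsISet iGraph)

private theorem ca1_adj (hCYA : CYA_stmt) (n : ℕ) (hn : 3 ≤ n) (u v : Fin n) :
    (SimpleGraph.cycleGraph n).Adj u v ↔
      (u.val + 1 = v.val ∨ v.val + 1 = u.val ∨ (u.val = 0 ∧ v.val + 1 = n) ∨ (v.val = 0 ∧ u.val + 1 = n)) := by
  rw [hCYA n hn u v]
  have hu := u.isLt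
  have hv := v.isLt
  have h1 : (u.val + 1) % n = if u.val + 1 = n then 0 else u.val + 1 := by
    by_cases h : u.val + 1 = n
    · rw [if_pos h, h, Nat.mod_self]
    · rw [if_neg h, Nat.mod_eq_of_lt (by omega)]
  have h2 : (v.val + 1) % n = if v.val + 1 = n then 0 else v.val + 1 := by
    by_cases h : v.val + 1 = n
    · rw [if_pos h, h, Nat.mod_self]
    · rw [if_neg h, Nat.mod_eq_of_lt (by omega)]
  rw [h1, h2]
  split_ifs <;> omega

private def ca1_S (n a b c : ℕ) : Finset (Fin n) :=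
  univ.filter fun x => x.val = a ∨ x.val = b ∨ x.val = c ∨ (7 ≤ x.val ∧ x.val % 3 = 1 ∧ x.val + 3 ≤ n)

private theorem ca1_mem (n a b c : ℕ) (x : Fin n) : x ∈ ca1_S n a b c ↔
    (x.val = a ∨ x.val = b ∨ x.val = c ∨ (7 ≤ x.val ∧ x.val % 3 = 1 ∧ x.val + 3 ≤ n)) := by
  unfold ca1_S
  rw [mem_filter]
  exact ⟨fun h => h.2, fun h => ⟨mem_univ _, h⟩⟩

private theorem ca1_card (n k a b c : ℕ) (hk : n = 3 * k + 1) (h3 : 3 ≤ k) : (ca1_S n a b c).card ≤ k + 1 := by
  have h1 : (ca1_S n a b c).card ≤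
      ((range (k + 1)).image fun j => if j = 0 then a else if j = 1 then b else if j = 2 then c else 3 * j - 2).card := by
    refine card_le_card_of_injOn (fun x => x.val) (fun x hx => ?_) (fun x _ y _ h => Fin.ext h)
    rw [mem_coe, ca1_mem] at hx
    rw [mem_coe, mem_image]
    rcases hx with h | h | h | h
    · exact ⟨0, mem_range.2 (by omega), by rw [if_pos rfl]; exact h.symm⟩
    · exact ⟨1, mem_range.2 (by omega), by rw [if_neg (by omega), if_pos rfl]; exact h.symm⟩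
    · exact ⟨2, mem_range.2 (by omega), by rw [if_neg (by omega), if_neg (by omega), if_pos rfl]; exact h.symm⟩
    · refine ⟨(x.val + 2) / 3, mem_range.2 (by omega), ?_⟩
      rw [if_neg (by omega), if_neg (by omega), if_neg (by omega)]
      show 3 * ((x.val + 2) / 3) - 2 = x.val
      omega
  refine h1.trans (card_image_le.trans ?_)
  rw [card_range]

private theorem ca1_iset (hLBD : LBD_stmt) (hCTT : CTT_stmt) (hCYA : CYA_stmt) (n a b c : ℕ) (hn : 10 ≤ n) (hn3 : n % 3 = 1)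
    (h : (a = 0 ∧ b = 2 ∧ c = 5) ∨ (a = n - 1 ∧ b = 2 ∧ c = 5) ∨ (a = 0 ∧ b = 3 ∧ c = 5) ∨ (a = 0 ∧ b = 2 ∧ c = 4)) :
    IsISet (SimpleGraph.cycleGraph n) (ca1_S n a b c) := by
  refine ⟨⟨fun u hu v hv huv => ?_, fun v hv => ?_⟩, fun T hT => ?_⟩
  · rw [ca1_mem] at hu hv
    rw [ca1_adj hCYA n (by omega)] at huv
    have h1 := u.isLt
    have h2 := v.isLt
    omega
  · rw [ca1_mem] at hv
    have h2 := v.isLt
    have key : ∃ x : ℕ, x < n ∧ (x = a ∨ x = b ∨ x = c ∨ (7 ≤ x ∧ x % 3 = 1 ∧ x + 3 ≤ n)) ∧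
        (x + 1 = v.val ∨ v.val + 1 = x ∨ (x = 0 ∧ v.val + 1 = n) ∨ (v.val = 0 ∧ x + 1 = n)) := by
      obtain ⟨y, hy⟩ : ∃ y : ℕ, y = v.val := ⟨_, rfl⟩
      rw [← hy] at hv h2 ⊢
      by_cases h6 : 6 ≤ y
      · by_cases hm0 : y % 3 = 0
        · by_cases hl : y + 1 = n
          · exact ⟨0, by omega, by omega, by omega⟩
          · exact ⟨y + 1, by omega, by omega, by omega⟩
        · by_cases hm2 : y % 3 = 2
          · exact ⟨y - 1, by omega, by omega, by omega⟩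
          · exfalso
            omega
      · by_cases h0 : y = 0
        · exact ⟨n - 1, by omega, by omega, by omega⟩
        · by_cases h1 : y = 1
          · by_cases ha : a = 0
            · exact ⟨0, by omega, by omega, by omega⟩
            · exact ⟨2, by omega, by omega, by omega⟩
          · by_cases h22 : y = 2
            · exact ⟨3, by omega, by omega, by omega⟩
            · by_cases h33 : y = 3
              · exact ⟨2, by omega, by omega, by omega⟩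
              · by_cases h44 : y = 4
                · by_cases hb : b = 3
                  · exact ⟨3, by omega, by omega, by omega⟩
                  · exact ⟨5, by omega, by omega, by omega⟩
                · exact ⟨4, by omega, by omega, by omega⟩
    obtain ⟨x, hx1, hx2, hx3⟩ := key
    refine ⟨⟨x, hx1⟩, (ca1_mem n a b c ⟨x, hx1⟩).2 hx2, ?_⟩
    rw [ca1_adj hCYA n (by omega)]
    exact hx3
  · have h1 := hLBD (Fin n) (SimpleGraph.cycleGraph n) (hCTT n (by omega)) T hT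
    rw [Fintype.card_fin] at h1
    have h2 := ca1_card n (n / 3) a b c (by omega) (by omega)
    omega

theorem CA1 (hLBD : LBD_stmt) (hCTT : CTT_stmt) (hCYA : CYA_stmt) : CA1_stmt := by
  intro n hn hn3
  have h0 := ca1_iset hLBD hCTT hCYA n 0 2 5 hn hn3 (by omega)
  have h1 := ca1_iset hLBD hCTT hCYA n (n - 1) 2 5 hn hn3 (by omega)
  have h2 := ca1_iset hLBD hCTT hCYA n 0 3 5 hn hn3 (by omega)
  have h3 := ca1_iset hLBD hCTT hCYA n 0 2 4 hn hn3 (by omega)
  refine ⟨⟨_, h0⟩, ⟨_, h1⟩, ⟨_, h2⟩, ⟨_, h3⟩, ?_, ?_, ?_, ?_, ?_, ?_⟩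
  · refine ⟨fun he => ?_, ⟨0, by omega⟩, ?_, ⟨n - 1, by omega⟩, ?_, ?_, ?_⟩
    · have he' : ca1_S n 0 2 5 = ca1_S n (n - 1) 2 5 := congrArg Subtype.val he
      have hm : (⟨0, by omega⟩ : Fin n) ∈ ca1_S n 0 2 5 := (ca1_mem _ _ _ _ _).2 (Or.inl rfl)
      rw [he', ca1_mem] at hm
      simp only at hm
      omega
    · exact (ca1_mem _ _ _ _ _).2 (Or.inl rfl)
    · exact (ca1_mem _ _ _ _ _).2 (Or.inl rfl)
    · rw [ca1_adj hCYA n (by omega)]
      exact Or.inr (Or.inr (Or.inl ⟨rfl, by show n - 1 + 1 = n; omega⟩))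
    · ext x
      show x ∈ ca1_S n (n - 1) 2 5 ↔ x ∈ insert (⟨n - 1, by omega⟩ : Fin n) ((ca1_S n 0 2 5).erase ⟨0, by omega⟩)
      rw [mem_insert, mem_erase, ca1_mem, ca1_mem, Ne, Fin.ext_iff, Fin.ext_iff]
      simp only
      omega
  · refine ⟨fun he => ?_, ⟨2, by omega⟩, ?_, ⟨3, by omega⟩, ?_, ?_, ?_⟩
    · have he' : ca1_S n 0 2 5 = ca1_S n 0 3 5 := congrArg Subtype.val he
      have hm : (⟨2, by omega⟩ : Fin n) ∈ ca1_S n 0 2 5 := (ca1_mem _ _ _ _ _).2 (Or.inr (Or.inl rfl))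
      rw [he', ca1_mem] at hm
      simp only at hm
      omega
    · exact (ca1_mem _ _ _ _ _).2 (Or.inr (Or.inl rfl))
    · exact (ca1_mem _ _ _ _ _).2 (Or.inr (Or.inl rfl))
    · rw [ca1_adj hCYA n (by omega)]
      exact Or.inl rfl
    · ext x
      show x ∈ ca1_S n 0 3 5 ↔ x ∈ insert (⟨3, by omega⟩ : Fin n) ((ca1_S n 0 2 5).erase ⟨2, by omega⟩)
      rw [mem_insert, mem_erase, ca1_mem, ca1_mem, Ne, Fin.ext_iff, Fin.ext_iff]
      simp only
      omega
  · refine ⟨fun he => ?_, ⟨5, by omega⟩, ?_, ⟨4, by omega⟩, ?_, ?_, ?_⟩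
    · have he' : ca1_S n 0 2 5 = ca1_S n 0 2 4 := congrArg Subtype.val he
      have hm : (⟨5, by omega⟩ : Fin n) ∈ ca1_S n 0 2 5 := (ca1_mem _ _ _ _ _).2 (Or.inr (Or.inr (Or.inl rfl)))
      rw [he', ca1_mem] at hm
      simp only at hm
      omega
    · exact (ca1_mem _ _ _ _ _).2 (Or.inr (Or.inr (Or.inl rfl)))
    · exact (ca1_mem _ _ _ _ _).2 (Or.inr (Or.inr (Or.inl rfl)))
    · rw [ca1_adj hCYA n (by omega)]
      exact Or.inr (Or.inl rfl)
    · ext x
      show x ∈ ca1_S n 0 2 4 ↔ x ∈ insert (⟨4, by omega⟩ : Fin n) ((ca1_S n 0 2 5).erase ⟨5, by omega⟩)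
      rw [mem_insert, mem_erase, ca1_mem, ca1_mem, Ne, Fin.ext_iff, Fin.ext_iff]
      simp only
      omega
  · intro he
    have he' : ca1_S n (n - 1) 2 5 = ca1_S n 0 3 5 := congrArg Subtype.val he
    have hm : (⟨2, by omega⟩ : Fin n) ∈ ca1_S n (n - 1) 2 5 := (ca1_mem _ _ _ _ _).2 (Or.inr (Or.inl rfl))
    rw [he', ca1_mem] at hm
    simp only at hm
    omega
  · intro he
    have he' : ca1_S n (n - 1) 2 5 = ca1_S n 0 2 4 := congrArg Subtype.val he
    have hm : (⟨5, by omega⟩ : Fin n) ∈ ca1_S n (n - 1) 2 5 := (ca1_mem _ _ _ _ _).2 (Or.inr (Or.inr (Or.inl rfl)))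
    rw [he', ca1_mem] at hm
    simp only at hm
    omega
  · intro he
    have he' : ca1_S n 0 3 5 = ca1_S n 0 2 4 := congrArg Subtype.val he
    have hm : (⟨3, by omega⟩ : Fin n) ∈ ca1_S n 0 3 5 := (ca1_mem _ _ _ _ _).2 (Or.inr (Or.inl rfl))
    rw [he', ca1_mem] at hm
    simp only at hm
    omega

end Pool.Agent.helper91.SI
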